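import Pool.Agent.Lib_helper35.SI.Main

/-!
# Strongly increasing sequences of length `ω_(n+2)`: values below a countable ordinal

If there is a strongly increasing sequence of length `ω_(n+2)` of functions from `ω` to some
`η < ω_(n+2)`, then there is one, of the same length, with values below a countable ordinal.
-/

open Ordinal Cardinal Set Order

namespace Pool.Agent.Results.MP_ebde8a_lc.CountableRange

open MPebde8a

theorem result (n : ℕ) (f : Ordinal.{0} → ℕ → Ordinal.{0}) (η : Ordinal.{0})
    (hη : η < ω_ (n + 2)) (hf : StronglyIncreasing (ω_ (n + 2)) f)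
    (hb : ∀ α < ω_ (n + 2), ∀ k, f α k < η) :
    ∃ ε < ω₁, ∃ g, StronglyIncreasing (ω_ (n + 2)) g ∧ ∀ α < ω_ (n + 2), ∀ k, g α k < ε := by
  have e2 : ((n + 1 + 1 : ℕ) : Ordinal.{0}) = (n : Ordinal.{0}) + 2 := by
    push_cast
    rw [add_assoc, one_add_one_eq_two]
  have h := main n f η
  rw [e2] at h
  exact (h hη hf hb).2.1

end Pool.Agent.Results.MP_ebde8a_lc.CountableRange
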