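import Pool.Agent.Lib_helper35.SI.Main

/-!
# Strongly increasing sequences of length `ω_(n+2)`: values below one function `ω → ω`

If there is a strongly increasing sequence of length `ω_(n+2)` of functions from `ω` to some
`η < ω_(n+2)`, then there is one, of the same length, all of whose members are below one function
`H : ω → ω`, or there is a sequence of length `ω_(n+2)` in `ω^ω` all of whose unbounded
subfamilies are unbounded modulo finite (so the bounding number is at most `ℵ_(n+2)`).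
-/

open Ordinal Cardinal Set Order

namespace Pool.Agent.Results.MP_ebde8a_lc.FiniteRange

open MPebde8a

theorem result (n : ℕ) (f : Ordinal.{0} → ℕ → Ordinal.{0}) (η : Ordinal.{0})
    (hη : η < ω_ (n + 2)) (hf : StronglyIncreasing (ω_ (n + 2)) f)
    (hb : ∀ α < ω_ (n + 2), ∀ k, f α k < η) :
    (∃ H : ℕ → ℕ, ∃ g, StronglyIncreasing (ω_ (n + 2)) g ∧
      ∀ α < ω_ (n + 2), ∀ k, g α k ≤ ((H k : ℕ) : Ordinal.{0})) ∨
    ∃ q : Ordinal.{0} → ℕ → ℕ, ∀ Y : Set Ordinal.{0},
      (∀ β < ω_ (n + 2), ∃ α ∈ Y, β ≤ α ∧ α < ω_ (n + 2)) →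
      ∀ b : ℕ → ℕ, ∃ α ∈ Y, α < ω_ (n + 2) ∧ ∀ m, ∃ k, m ≤ k ∧ b k < q α k := by
  have e2 : ((n + 1 + 1 : ℕ) : Ordinal.{0}) = (n : Ordinal.{0}) + 2 := by
    push_cast
    rw [add_assoc, one_add_one_eq_two]
  have h := main n f η
  rw [e2] at h
  exact (h hη hf hb).2.2

end Pool.Agent.Results.MP_ebde8a_lc.FiniteRange
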