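import Pool.Agent.Lib_helper35.SI.Main

/-!
# Strongly increasing sequences of length `ω_(n+2)` and clubs of `ω_(n+1)` without small trees

A pair of inner models `V ⊆ W` with `(ℵ_(ω+1))^V = (ℵ_(n+2))^W` gives in `W` a strongly increasing
sequence of length `ω_(n+2)` of functions from `ω` to some `η < ω_(n+2)`. We prove in `ZFC` that
the existence of such a sequence has the following consequence: for every family of at most
`ℵ_(n+1)` sets there is a club `E` of `ω_(n+1)` such that every `c ⊆ E` all of whose proper initial
segments are in the family is countable. For `n = 0` this excludes every `W` which is an extension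
of a model of `CH` by a forcing with the countable chain condition (take all countable sets of
ordinals below `ω_1` of the ground model).

Proof. By a reduction of the range (weak form) let all values be below `ε < ω_1`. Build a
continuous sequence `y : ω_(n+1) → ω_(n+2)` such that `y (j + 1)` is above an upper bound `f_ρ`,
from the place `m` on, of the `f_(y x)`, `x ∈ t`, for every `m` and every `t` in the family,
`t ⊆ [0, j]`, for which there is one. Let `δ` be the supremum of `y`, `C ⊆ δ` the club and `m` the
number given by strong increase, and `E = y⁻¹(C)`. If `c ⊆ E` is uncountable with its proper initial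
segments in the family, then uncountably many steps of `c` use the same number and the values at
one place are strictly increasing below `ε`.
-/

open Ordinal Cardinal Set Order

namespace Pool.Agent.Results.MP_ebde8a_lc.SmallTrees

open MPebde8a

theorem result (n : ℕ) (f : Ordinal.{0} → ℕ → Ordinal.{0}) (η : Ordinal.{0})
    (hη : η < ω_ (n + 2)) (hf : StronglyIncreasing (ω_ (n + 2)) f)
    (hb : ∀ α < ω_ (n + 2), ∀ k, f α k < η) (t : Ordinal.{0} → Set Ordinal.{0}) :
    ∃ E, ClubIn (ω_ (n + 1)) E ∧
      ∀ c ⊆ E, (∀ a ∈ c, ∃ i < ω_ (n + 1), {x | x ∈ c ∧ x < a} = t i) → c.Countable := by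
  have e1 : ((n + 1 : ℕ) : Ordinal.{0}) = (n : Ordinal.{0}) + 1 := by push_cast; rfl
  have e2 : ((n + 1 + 1 : ℕ) : Ordinal.{0}) = (n : Ordinal.{0}) + 2 := by
    push_cast
    rw [add_assoc, one_add_one_eq_two]
  have h := main n f η
  rw [e1, e2] at h
  exact (h hη hf hb).1 t

end Pool.Agent.Results.MP_ebde8a_lc.SmallTrees
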